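import Pool.Agent.Lib.MP_b5021c_nt.IfaceKO
import Pool.Agent.Lib.MP_b5021c_nt.E.H63.Sel
import Pool.Agent.Lib.MP_b5021c_nt.KE.H96.Ray

/-!
# MP_b5021c_nt, all `θ`, K odd: the top assembly, normalised form (helper12)
-/

namespace Pool.Agent.B5.KO

open scoped LaurentPolynomial
open Polynomial
open Pool.Agent.B5.KE

section

variable {P L : Type} [Fintype P] [DecidableEq P] [AddCommGroup L] [Module.Free ℤ L]
  [Module.Finite ℤ L] {phi : L →+ (P → ℤ)} {D : AO ℤ L}

/-- The component of `S0` under the mutual relation. -/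
def Comp (D : AO ℤ L) (eta : L → (RO ℤ)ˣ) (S0 : L) : Set L :=
  {T | Relation.ReflTransGen (fun S T => Mut D S T (eta S) (eta T)) S0 T}

theorem comp_step {eta : L → (RO ℤ)ˣ} {S0 S T : L} (hS : S ∈ Comp D eta S0)
    (h : Mut D S T (eta S) (eta T)) : T ∈ Comp D eta S0 := hS.tail h

/-- The common coefficient of a component. -/
theorem comp_coe (hMco : McoS) (hD : DD phi D) {eta : L → (RO ℤ)ˣ} {S0 T : L}
    (hT : T ∈ Comp D eta S0) : (eta T : RO ℤ) * D.coeff T = (eta S0 : RO ℤ) * D.coeff S0 := by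
  induction hT with
  | refl => rfl
  | tail _ h ih =>
    rw [(hMco ℤ P L phi D _ _ _ _ hD.inj hD.bin h).2.1, ih]

theorem neg_S {S : L} {q f : ℤ[X]} {e : (RO ℤ)ˣ} {a : ℝ} (h : RN D S q f e a) :
    ((-e : (RO ℤ)ˣ) : RO ℤ) * D.coeff S = toLaurent (-f) := by
  rw [Units.val_neg, neg_mul, h.DS, map_neg]

theorem ld_S1 {S : L} {q f : ℤ[X]} {e : (RO ℤ)ˣ} {a : ℝ} (h : RN D S q f e a) :
    ((ld e 1 : (RO ℤ)ˣ) : RO ℤ) * D.coeff S = toLaurent (X * f) := by
  have := ld_S h 1
  rw [pow_one] at this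
  exact_mod_cast this

/-- The top assembly of K odd for normalised elements. -/
theorem kodn (hE2 : E2S) (hSel : SelxS) (hMco : McoS) (hOfa : OfaS) (hOfb : OfbS) (hO1 : Oo1S)
    (hO4 : Oo4S) (hB2 : Ob2S) (hB3 : Ob3S) (hB4 : Ob4S) : KodnS := by
  intro P L _ _ _ _ _ phi D q a j hK
  have hD : DD phi D := hK.min.fp.dd
  have h2 : 2 ≤ Module.finrank ℤ L := by have := hK.rk; have := hK.j2; omega
  obtain ⟨eta, g, C, ⟨S0, hS0⟩, hC⟩ := hSel ℤ P L phi D hD h2
  have hnorm : ∀ S, Ray D S → ∃ (f : ℤ[X]) (e : (RO ℤ)ˣ), RN D S q f e a := fun S hS =>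
    ray_norm hE2 hD h2 hK.D0 hK.qn hS
  rcases Nat.eq_zero_or_pos g with hg | hg
  · -- all loads are drop free
    obtain ⟨hray, h0, -, -⟩ := hC S0 hS0
    obtain ⟨f, e, hRN⟩ := hnorm S0 hray
    have hfr : ∀ e' : (RO ℤ)ˣ, Dfr phi D S0 e' := fun e' i0 h => h0 hg e' i0 h
    rcases lt_or_ge 1 (f.coeff 0) with hu | hu
    · exact hOfa P L phi D S0 q f e a j hK hray hRN hu (hfr _)
    · have hu1 : f.coeff 0 = 1 := le_antisymm hu hRN.u
      exact hO1 P L phi D S0 q f e a j hK hray hRN hu1 (hfr _) (hfr _)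
  · -- a drop
    have hty : ∀ S ∈ C, ∃ (f : ℤ[X]) (e : (RO ℤ)ˣ), RN D S q f e a ∧
        (eta S = ld e 1 ∨ (eta S = -e ∧ f.coeff 0 = 1)) := by
      intro S hS
      obtain ⟨hray, -, h1, -⟩ := hC S hS
      obtain ⟨hdr, -, -⟩ := h1 hg
      obtain ⟨f, e, hRN⟩ := hnorm S hray
      refine ⟨f, e, hRN, ?_⟩
      by_cases hb : eta S = ld e 1
      · exact Or.inl hb
      · right
        have hfb : Dfr phi D S (ld e 1) := fun i0 h => hdr.fr _ (Ne.symm hb) i0 h
        rcases lt_or_ge 1 (f.coeff 0) with hu | hu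
        · exact absurd (hOfa P L phi D S q f e a j hK hray hRN hu hfb) id
        · have hu1 : f.coeff 0 = 1 := le_antisymm hu hRN.u
          refine ⟨?_, hu1⟩
          by_contra ha
          exact hO1 P L phi D S q f e a j hK hray hRN hu1 hfb
            (fun i0 h => hdr.fr _ (Ne.symm ha) i0 h)
    -- the component of `S0`
    have hsub : ∀ T ∈ Comp D eta S0, T ∈ C := by
      intro T hT
      induction hT with
      | refl => exact hS0
      | tail _ h ih => exact (((hC _ ih).2.2.1 hg).2.2 _ h.r1 h.m0).1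
    have hKc : Kc phi D eta g (Comp D eta S0) := by
      refine ⟨hg, ⟨S0, Relation.ReflTransGen.refl⟩, fun S hS => (hC S (hsub S hS)).1,
        fun S hS => ((hC S (hsub S hS)).2.2.1 hg).1.us, fun S hS => ((hC S (hsub S hS)).2.2.1 hg).1.dr,
        fun S hS e he i0 h => ((hC S (hsub S hS)).2.2.1 hg).1.fr e he i0 h, ?_, ?_, ?_⟩
      · intro S hS T hT hTU
        have h1 := ((hC S (hsub S hS)).2.2.1 hg).2.2 T hT hTU
        exact ⟨comp_step hS h1.2, h1.2⟩
      · intro S hS
        obtain ⟨T, -, hT⟩ := ((hC S (hsub S hS)).2.2.1 hg).2.1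
        exact ⟨T, comp_step hS hT, hT⟩
      · intro hg2 S hS
        obtain ⟨S1, -, S2, -, hM1, hM2, h3, h4⟩ := (hC S (hsub S hS)).2.2.2 hg2
        exact ⟨S1, comp_step hS hM1, S2, comp_step hS hM2, hM1, hM2, h3, h4⟩
    obtain ⟨f, e0, hRN0, hty0⟩ := hty S0 hS0
    have hX0 : ∀ p : ℤ[X], (X * p).coeff 0 = 0 := fun p => by rw [mul_coeff_zero, coeff_X_zero, zero_mul]
    rcases hty0 with hb | ⟨ha, hu⟩
    · -- type B
      have hrn : ∀ S ∈ Comp D eta S0, ∃ e : (RO ℤ)ˣ, eta S = ld e 1 ∧ RN D S q f e a := by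
        intro S hS
        obtain ⟨f', e', hRN', hty'⟩ := hty S (hsub S hS)
        have hco := comp_coe hMco hD hS
        rw [hb, ld_S1 hRN0] at hco
        rcases hty' with hb' | ⟨ha', -⟩
        · rw [hb', ld_S1 hRN'] at hco
          have h1 := mul_left_cancel₀ X_ne_zero (toLaurent_injective hco)
          subst h1
          exact ⟨e', hb', hRN'⟩
        · exfalso
          rw [ha', neg_S hRN'] at hco
          have h1 := congrArg (fun p => coeff p 0) (toLaurent_injective hco)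
          simp only [coeff_neg, hX0] at h1
          have := hRN'.u
          omega
      have hKcB : KcB phi D q f a j eta g (Comp D eta S0) := ⟨hK, hKc, hrn⟩
      have hu := hOfb P L phi D q f a j eta g _ hKcB
      obtain ⟨hn, hg12⟩ := hB2 P L phi D q f a j eta g _ hKcB hu
      rcases hg12 with h1 | h1
      · subst h1
        exact hB4 P L phi D q f a j eta _ hKcB hu hn
      · subst h1
        exact hB3 P L phi D q f a j eta _ hKcB hu hn
    · -- type A
      have hrn : ∀ S ∈ Comp D eta S0, ∃ e : (RO ℤ)ˣ, eta S = -e ∧ RN D S q f e a := by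
        intro S hS
        obtain ⟨f', e', hRN', hty'⟩ := hty S (hsub S hS)
        have hco := comp_coe hMco hD hS
        rw [ha, neg_S hRN0] at hco
        rcases hty' with hb' | ⟨ha', -⟩
        · exfalso
          rw [hb', ld_S1 hRN'] at hco
          have h1 := congrArg (fun p => coeff p 0) (toLaurent_injective hco)
          simp only [coeff_neg, hX0] at h1
          omega
        · rw [ha', neg_S hRN'] at hco
          have h1 := neg_injective (toLaurent_injective hco)
          subst h1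
          exact ⟨e', ha', hRN'⟩
      exact hO4 P L phi D q f a j eta g _ ⟨hK, hKc, hrn⟩ hu

end

end Pool.Agent.B5.KO
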