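import Pool.Agent.Lib.MP_b5021c_nt.IfaceKO
import Pool.Agent.Lib.MP_b5021c_nt.KE.H96.Step
import Pool.Agent.Lib.MP_b5021c_nt.KE.H96.Ray
import Pool.Agent.Lib.MP_b5021c_nt.E.H12.B2b

/-!
# MP_b5021c_nt, all `θ`: the induction step for odd rank; rank two (helper12)
-/

namespace Pool.Agent.B5.KO

open scoped LaurentPolynomial
open Polynomial
open Pool.Agent.B5.KE
open Pool.Agent.B5.Nr.Sch

/-- `Qn` gives the class. -/
theorem classP_qn {q : ℤ[X]} {a : ℝ} (h : Qn q a) : ClassP a⁻¹ (toLaurent q : RO ℤ) := by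
  have hL : Loc q 0 a := ⟨h.a0, h.a1, h.q0, fun z _ => by
    rw [map_zero, norm_zero]; exact norm_nonneg _, h.s⟩
  exact classP_of h.a0 h.a1 h.q0 (roots_loc hL)

/-- NORMALISATION with minimal support. -/
theorem norm_min (hE2 : E2S) {P L : Type} [Fintype P] [DecidableEq P] [AddCommGroup L]
    [Module.Free ℤ L] [Module.Finite ℤ L] {phi : L →+ (P → ℤ)} {D : AO ℤ L} {θ : ℝ}
    (hm : MinD θ phi D) (h2 : 2 ≤ Module.finrank ℤ L) :
    ∃ (D' : AO ℤ L) (q : ℤ[X]), MinD (θ⁻¹)⁻¹ phi D' ∧ D'.coeff 0 = toLaurent q ∧ Qn q θ⁻¹ := by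
  obtain ⟨D', q, fp, h0, hq, hs⟩ := norm_fp hE2 hm.fp h2 hm.cls
  refine ⟨D', q, ⟨fp, ?_, ?_, ?_⟩, h0, hq⟩
  · rw [h0]
    exact classP_qn hq
  · rw [hs]
    exact hm.top
  · intro P' L' _ _ _ _ _ phi' D'' hD'' hr hc
    rw [hs]
    refine hm.min P' L' phi' D'' hD'' hr ?_
    rwa [inv_inv] at hc

/-- The induction step for odd rank. -/
theorem kost (hE2 : E2S) (hMin : MinSS) (hMono : MonoS) (hKod : KodnS) : KoStS := by
  intro j hj hIH θ P L _ _ _ _ _ phi D hD hP hfr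
  refine ⟨fun he => ?_, fun _ => ?_⟩
  · rw [Nat.even_iff] at he
    omega
  by_contra hcon
  push Not at hcon
  have hθj : θ < (j : ℝ) + 1 := by
    push_cast at hcon
    linarith
  have hθ1 : 1 < θ := hP.1
  have hθ0 : 0 < θ := by linarith
  obtain ⟨P1, L1, _, _, _, _, _, phi1, D1, hm, hf1⟩ := hMin ℤ P L phi D θ hD (by omega) hP
  obtain ⟨D2, q, hm2, h0, hq⟩ := norm_min hE2 hm (by omega)
  have hmu : (j : ℝ) ≤ (θ⁻¹)⁻¹ - θ⁻¹ := by
    obtain ⟨P', L', _, _, _, _, _, phi', D', hD', hf', hP'⟩ := H78.Mono.mono_to hMono ℤ θ (2 * j)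
      (by omega) 1 P L phi D hD hP (by omega)
    have h1 := (hIH (2 * j) (by omega) θ P' L' phi' D' hD' hP' hf').1 (even_two_mul j)
    push_cast at h1
    rw [inv_inv]
    rw [one_div] at h1
    linarith
  refine hKod P1 L1 phi1 D2 q θ⁻¹ j ⟨hm2, h0, hq, hj, by omega, ?_, hmu, hIH⟩
  rw [← div_eq_mul_inv, one_lt_div hθ0]
  exact hθj

/-- Rank two. -/
theorem bn2 (h : H12.B2S) : Bn2S := by
  intro θ P L _ _ _ _ _ phi D hD hP hfr
  have h1 := h P L phi D θ hD (by omega) hP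
  refine ⟨fun _ => ?_, fun ho => ?_⟩
  · rw [one_div]
    push_cast
    linarith
  · rw [Nat.odd_iff] at ho
    omega

end Pool.Agent.B5.KO
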