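import Pool.Agent.Lib.MP_b5021c_nt.KO.H67.Tk
import Pool.Agent.Lib.MP_b5021c_nt.KO.H71.Nf
import Pool.Agent.Lib.MP_b5021c_nt.KO.H21.Ter
import Pool.Agent.Lib.MP_b5021c_nt.B.H14.Pri

/-!
# MP_b5021c_nt, all `θ`, K ODD, leaf O4, `l = 3`, row TER: the terminal form of `D` is impossible
(helper12)

`TerC phi D r e mu`: a closed triple `r 0`, `r 1`, `r 2`, and `D = A + B (S_1 - S_2) + X' (A + 3 B)`,
in coefficients.  The closing of `r 0` is `(A + B) + Y (A + 2 B)`, an element of `DD` of rank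
`2 j - 1`; its load A at `Y` is `-z f`.
-/

set_option linter.unusedSectionVars false

namespace Pool.Agent.B5.KO12

open scoped LaurentPolynomial
open Polynomial
open Pool.Agent.B5.KE
open Pool.Agent.B5.Nr.Sch (Loc)
open Pool.Agent.B5.KO.H71
open Pool.Agent.B5.KO67

section

variable {P L : Type} [Fintype P] [DecidableEq P] [AddCommGroup L] [Module.Free ℤ L]
  [Module.Finite ℤ L] {phi : L →+ (P → ℤ)} {D : AO ℤ L}

/-- The terminal form, in coefficients. -/
structure TerC (phi : L →+ (P → ℤ)) (D : AO ℤ L) (r : ZMod 3 → L) (e : ZMod 3 → (RO ℤ)ˣ)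
    (mu : ZMod 3 → L →+ ℤ) : Prop where
  tri : Tri phi D r e mu
  zer : ∀ a ∈ supp D, (∀ i, mu i a = 0) → Fr phi r mu a ∨ Fr phi r mu (a - (r 0 + (r 1 + r 2)))
  apx : ∀ u, Fr phi r mu u → (e 0 : RO ℤ) * (e 1 : RO ℤ) * (e 2 : RO ℤ) *
    D.coeff (u + (r 0 + (r 1 + r 2))) = D.coeff u + 3 * ((e 0 : RO ℤ) * D.coeff (u + r 0))

variable {r : ZMod 3 → L} {e : ZMod 3 → (RO ℤ)ˣ} {mu : ZMod 3 → L →+ ℤ}

/-- A unit times an element is zero. -/
theorem uz {e : (RO ℤ)ˣ} {x : RO ℤ} (h : (e : RO ℤ) * x = 0) : x = 0 :=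
  (mul_eq_zero.mp h).resolve_left e.isUnit.ne_zero

/-- `c` divides a unit multiple. -/
theorem ud {e : (RO ℤ)ˣ} {x c : RO ℤ} (h : c ∣ (e : RO ℤ) * x) : c ∣ x :=
  (e.isUnit.dvd_mul_left).mp h

theorem fr0 {i0 : P} (h : phi (r 0) i0 = 1) {u : L} (hu : Fr phi r mu u) : phi u i0 = 0 :=
  (hu.1 0 i0).resolve_right (by rw [h]; exact one_ne_zero)

theorem d01 (h : Tri phi D r e mu) {i0 : P} (hi : phi (r 0) i0 = 1) :
    phi (r 1) i0 = 0 ∧ phi (r 2) i0 = 0 := by
  constructor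
  · exact (h.dis 0 1 (by decide) i0).resolve_left (by rw [hi]; exact one_ne_zero)
  · exact (h.dis 0 2 (by decide) i0).resolve_left (by rw [hi]; exact one_ne_zero)

/-- The coefficients of singles `u + r i`, `i ≠ 0`, vanish. -/
theorem van (T : TerC phi D r e mu) (hF1 : F1S) (hD : DD phi D) {u : L} (hu : Fr phi r mu u)
    {i : ZMod 3} (hi : i ≠ 0) : D.coeff (u + r i) + (e 0 : RO ℤ) * D.coeff (u + r i + r 0) = 0 := by
  have h1 := T.tri.pair hF1 hD.inj hD.bin hu hi i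
  apply uz (e := e i)
  linear_combination h1

/-- The support of the closing of `r 0`. -/
theorem v_supp (T : TerC phi D r e mu) (hF1 : F1S) (hD : DD phi D) {i0 : P}
    (h : co phi i0 (r 0) = 1) {x : Ker (co phi i0)}
    (hx : x ∈ supp (cl (co phi i0) (r 0) h (e 0) D)) :
    Fr phi r mu (x : L) ∨ Fr phi r mu ((x : L) - (r 1 + r 2)) := by
  have hi0 : phi (r 0) i0 = 1 := h
  obtain ⟨h1, h2⟩ := d01 T.tri hi0
  have hx0 : phi (x : L) i0 = 0 := x.2
  have hv : D.coeff (x : L) + (e 0 : RO ℤ) * D.coeff ((x : L) + r 0) ≠ 0 := by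
    rw [← cl_co hD h (e 0) x]
    exact hx
  have hr : ∀ i : ZMod 3, i ≠ 0 → phi (r i) i0 = 0 := by
    intro i hi
    exact (T.tri.dis 0 i hi.symm i0).resolve_left (by rw [hi0]; exact one_ne_zero)
  by_cases hDx : D.coeff (x : L) = 0
  · have hDx' : (x : L) + r 0 ∈ supp D := by
      intro h0
      apply hv
      rw [hDx, h0, mul_zero, add_zero]
    rcases T.tri.nf hF1 hD.inj hD.bin hDx' with h3 | ⟨i, u, hu, h3⟩ | ⟨i, u, hu, h3⟩
    · rcases T.zer _ hDx' h3 with h4 | h4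
      · exfalso
        have h5 := fr0 hi0 h4
        rw [map_add, Pi.add_apply, hx0, hi0] at h5
        omega
      · right
        have h5 : (x : L) + r 0 - (r 0 + (r 1 + r 2)) = (x : L) - (r 1 + r 2) := by abel
        rw [h5] at h4
        exact h4
    · by_cases hi : i = 0
      · left
        rw [hi] at h3
        rw [add_right_cancel h3]
        exact hu
      · exfalso
        have h5 := congrArg (fun y => phi y i0) h3
        simp only [map_add, Pi.add_apply] at h5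
        rw [hx0, hi0, hr i hi, fr0 hi0 hu] at h5
        omega
    · rcases z3v i with rfl | rfl | rfl
      · exfalso
        have h5 := congrArg (fun y => phi y i0) h3
        simp only [map_add, Pi.add_apply] at h5
        rw [hx0, hi0, hr (0 + 1) (by decide), hr (0 - 1) (by decide), fr0 hi0 hu] at h5
        omega
      · exfalso
        apply hv
        have h5 : (x : L) = u + r 2 := by
          have h6 : (1 : ZMod 3) - 1 = 0 := by decide
          have h7 : (1 : ZMod 3) + 1 = 2 := by decide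
          rw [h6, h7] at h3
          exact add_right_cancel h3
        rw [h5]
        exact van T hF1 hD hu (by decide)
      · exfalso
        apply hv
        have h5 : (x : L) = u + r 1 := by
          have h6 : (2 : ZMod 3) + 1 = 0 := by decide
          have h7 : (2 : ZMod 3) - 1 = 1 := by decide
          rw [h6, h7, add_right_comm] at h3
          exact add_right_cancel h3
        rw [h5]
        exact van T hF1 hD hu (by decide)
  · rcases T.tri.nf hF1 hD.inj hD.bin hDx with h3 | ⟨i, u, hu, h3⟩ | ⟨i, u, hu, h3⟩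
    · rcases T.zer _ hDx h3 with h4 | h4
      · exact Or.inl h4
      · exfalso
        have h5 := fr0 hi0 h4
        simp only [map_add, map_sub, Pi.add_apply, Pi.sub_apply] at h5
        rw [hx0, hi0, h1, h2] at h5
        omega
    · by_cases hi : i = 0
      · exfalso
        have h5 := congrArg (fun y => phi y i0) h3
        simp only [map_add, Pi.add_apply] at h5
        rw [hx0, hi, hi0, fr0 hi0 hu] at h5
        omega
      · exfalso
        apply hv
        rw [h3]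
        exact van T hF1 hD hu hi
    · rcases z3v i with rfl | rfl | rfl
      · right
        have h6 : (0 : ZMod 3) + 1 = 1 := by decide
        have h7 : (0 : ZMod 3) - 1 = 2 := by decide
        rw [h6, h7] at h3
        have h5 : (x : L) - (r 1 + r 2) = u := by rw [h3]; abel
        rw [h5]
        exact hu
      · exfalso
        have h6 : (1 : ZMod 3) - 1 = 0 := by decide
        have h5 := congrArg (fun y => phi y i0) h3
        simp only [map_add, Pi.add_apply] at h5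
        rw [h6, hx0, hi0, hr (1 + 1) (by decide), fr0 hi0 hu] at h5
        omega
      · exfalso
        have h6 : (2 : ZMod 3) + 1 = 0 := by decide
        have h5 := congrArg (fun y => phi y i0) h3
        simp only [map_add, Pi.add_apply] at h5
        rw [h6, hx0, hi0, hr (2 - 1) (by decide), fr0 hi0 hu] at h5
        omega

/-- The coefficients of the second kind. -/
theorem v_y (T : TerC phi D r e mu) (hF1 : F1S) (hD : DD phi D) {i0 : P}
    (h : co phi i0 (r 0) = 1) {x : Ker (co phi i0)} {u : L} (hu : Fr phi r mu u)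
    (hx : (x : L) = u + (r 1 + r 2)) :
    (e 1 : RO ℤ) * (e 2 : RO ℤ) * (cl (co phi i0) (r 0) h (e 0) D).coeff x =
      D.coeff u + 2 * ((e 0 : RO ℤ) * D.coeff (u + r 0)) := by
  rw [cl_co hD h (e 0) x, hx]
  have h1 := T.tri.pair hF1 hD.inj hD.bin hu (show (1 : ZMod 3) ≠ 2 by decide) 0
  have h2 := T.apx u hu
  have h3 : u + (r 1 + r 2) + r 0 = u + (r 0 + (r 1 + r 2)) := by abel
  rw [h3, ← add_assoc u (r 1) (r 2)]
  linear_combination h1 + h2

/-- A common divisor of the coefficients of the closing divides `D`. -/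
theorem v_dvd (T : TerC phi D r e mu) (hF1 : F1S) (hD : DD phi D) {i0 : P}
    (h : co phi i0 (r 0) = 1) {c : RO ℤ}
    (hc : ∀ x, c ∣ (cl (co phi i0) (r 0) h (e 0) D).coeff x) : ∀ a, c ∣ D.coeff a := by
  have hi0 : phi (r 0) i0 = 1 := h
  obtain ⟨h1, h2⟩ := d01 T.tri hi0
  have key : ∀ u, Fr phi r mu u → c ∣ D.coeff u ∧ c ∣ (e 0 : RO ℤ) * D.coeff (u + r 0) := by
    intro u hu
    have hu0 := fr0 hi0 hu
    have k1 := hc ⟨u, hu0⟩
    rw [cl_co hD h (e 0)] at k1
    have hy0 : u + (r 1 + r 2) ∈ Ker (co phi i0) := by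
      change phi (u + (r 1 + r 2)) i0 = 0
      rw [map_add, map_add, Pi.add_apply, Pi.add_apply, hu0, h1, h2]
      rfl
    have k2 := (hc ⟨u + (r 1 + r 2), hy0⟩).mul_left ((e 1 : RO ℤ) * (e 2 : RO ℤ))
    rw [v_y T hF1 hD h hu rfl] at k2
    have k1' : c ∣ D.coeff u + (e 0 : RO ℤ) * D.coeff (u + r 0) := k1
    constructor
    · have := dvd_sub (k1'.mul_left 2) k2
      have h5 : 2 * (D.coeff u + (e 0 : RO ℤ) * D.coeff (u + r 0)) -
          (D.coeff u + 2 * ((e 0 : RO ℤ) * D.coeff (u + r 0))) = D.coeff u := by ring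
      rwa [h5] at this
    · have := dvd_sub k2 k1'
      have h5 : (D.coeff u + 2 * ((e 0 : RO ℤ) * D.coeff (u + r 0))) -
          (D.coeff u + (e 0 : RO ℤ) * D.coeff (u + r 0)) =
          (e 0 : RO ℤ) * D.coeff (u + r 0) := by ring
      rwa [h5] at this
  intro a
  by_cases ha : D.coeff a = 0
  · rw [ha]; exact dvd_zero c
  rcases T.tri.nf hF1 hD.inj hD.bin ha with h3 | ⟨i, u, hu, h3⟩ | ⟨i, u, hu, h3⟩
  · rcases T.zer _ ha h3 with h4 | h4
    · exact (key a h4).1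
    · obtain ⟨k1, k2⟩ := key _ h4
      have h5 := T.apx _ h4
      have h6 : a - (r 0 + (r 1 + r 2)) + (r 0 + (r 1 + r 2)) = a := by abel
      rw [h6] at h5
      have h7 : c ∣ ((e 0 * e 1 * e 2 : (RO ℤ)ˣ) : RO ℤ) * D.coeff a := by
        rw [Units.val_mul, Units.val_mul, h5]
        exact dvd_add k1 (k2.mul_left 3)
      exact ud h7
  · obtain ⟨k1, k2⟩ := key _ hu
    rw [h3]
    rw [← T.tri.all_eq hF1 hD.inj hD.bin hu i 0] at k2
    exact ud k2
  · obtain ⟨k1, k2⟩ := key _ hu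
    have h4 := T.tri.pair hF1 hD.inj hD.bin hu (z3g i) 0
    have h7 : c ∣ ((e (i + 1) * e (i - 1) : (RO ℤ)ˣ) : RO ℤ) * D.coeff a := by
      rw [Units.val_mul, h3, h4]
      exact k2.neg_right
    exact ud h7

/-- Exponents of the closing are binary up to the second kind. -/
theorem u_bin (hD : DD phi D) {u : L} (hu : Fr phi r mu u) (hne : u ≠ 0)
    (h : D.coeff u ≠ 0 ∨ D.coeff (u + r 0) ≠ 0) :
    ∃ p, (∀ i, phi (r i) p = 0) ∧ (∀ q, 0 ≤ phi u q) ∧ phi u p = 1 := by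
  have hb : ∀ p, phi u p = 0 ∨ phi u p = 1 := by
    intro p
    rcases hu.1 0 p with h1 | h1
    · exact Or.inl h1
    · rcases h with h2 | h2
      · exact hD.bin u h2 p
      · have h3 := hD.bin _ h2 p
        rw [map_add, Pi.add_apply, h1, add_zero] at h3
        exact h3
  have hp : ∃ p, phi u p = 1 := by
    by_contra hcon
    push Not at hcon
    apply hne
    apply hD.inj
    rw [map_zero]
    funext p
    exact (hb p).resolve_right (hcon p)
  obtain ⟨p, hp⟩ := hp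
  refine ⟨p, fun i => (hu.1 i p).resolve_left (by rw [hp]; exact one_ne_zero), ?_, hp⟩
  intro q
  rcases hb q with h1 | h1 <;> rw [h1]
  norm_num

/-- The number of ports outside the triple. -/
def lamO (phi : L →+ (P → ℤ)) (r : ZMod 3 → L) : L →+ ℤ :=
  ∑ p ∈ Finset.univ.filter (fun p => ∀ i, phi (r i) p = 0), co phi p

theorem lamO_apply (x : L) : lamO phi r x =
    ∑ p ∈ Finset.univ.filter (fun p => ∀ i, phi (r i) p = 0), phi x p := by
  unfold lamO
  rw [AddMonoidHom.finsetSum_apply]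
  rfl

theorem lamO_r (i : ZMod 3) : lamO phi r (r i) = 0 := by
  rw [lamO_apply]
  exact Finset.sum_eq_zero fun p hp => (Finset.mem_filter.mp hp).2 i

theorem lamO_pos (hD : DD phi D) {u : L} (hu : Fr phi r mu u) (hne : u ≠ 0)
    (h : D.coeff u ≠ 0 ∨ D.coeff (u + r 0) ≠ 0) : 0 < lamO phi r u := by
  obtain ⟨p, hp, hn, hp1⟩ := u_bin hD hu hne h
  rw [lamO_apply]
  refine Finset.sum_pos' (fun q _ => hn q) ⟨p, ?_, by rw [hp1]; norm_num⟩
  exact Finset.mem_filter.mpr ⟨Finset.mem_univ p, hp⟩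

/-- The closing B with the drop one, with coprime coefficients, is an element of `DD`. -/
theorem dd1 (hSf : SfzS) (hMV : MVS) (hMm : MmulS) (hE1 : E1S) (hPc : PCZS) (hClp : ClpS)
    (hFD : FDS) {q f : ℤ[X]} {a : ℝ} {j : ℕ} {eta : L → (RO ℤ)ˣ} {C : Set L}
    (W : KcB phi D q f a j eta 1 C) (hu : f.coeff 0 = 1) {S : L} (hS : S ∈ C) {i0 : P}
    (h : co phi i0 S = 1)
    (hpr : ∀ c : RO ℤ, (∀ x, c ∣ (cl (co phi i0) S h (eta S) D).coeff x) → IsUnit c) :
    ∃ K : Submodule ℤ (Ker (co phi i0)),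
      (∀ x ∈ supp (cl (co phi i0) S h (eta S) D), x ∈ K) ∧
      Module.finrank ℤ K + 2 = Module.finrank ℤ L ∧
      DD ((phO phi S i0).comp (incl K)) (res K (cl (co phi i0) S h (eta S) D)) ∧
      (cl (co phi i0) S h (eta S) D).coeff 0 = toLaurent (q + X * f) ∧
      ∃ b : ℝ, 0 < b ∧ b < 1 ∧
        ((q + X * f).map (Coef.emb : ℤ →+* ℂ)).roots.filter (fun x => ‖x‖ < 1) = {(b : ℂ)} := by
  have fp := W.ko.min.fp
  have hD := fp.dd
  have hrk := W.ko.rk
  have hj := W.ko.j2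
  have h2 : 2 ≤ Module.finrank ℤ L := by omega
  have hray := W.kc.ray S hS
  obtain ⟨eS, he, hR⟩ := W.rn S hS
  obtain ⟨S1, -, hM⟩ := W.kc.ex S hS
  have hdr := W.kc.dr S hS i0 h
  rw [he] at hM hpr hdr ⊢
  obtain ⟨c, n, G, fd⟩ := hFD ℤ P L phi D S i0 (ld eS 1) h
    ⟨hD, h2, hray, h, V0_ne hR (k := 1) (le_refl 1)⟩
  obtain ⟨hs, hbig⟩ := sf_B hSf W.ko hR hu fd (Or.inr ⟨S1, _, hM⟩)
  have hzero := zero_B hMV hMm hR fd hbig
  have hl := lob hPc hR.loc hR.u hR.ne (k := 1) (le_refl 1)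
  rw [pow_one] at hl
  obtain ⟨b, hab, hb1, hb⟩ := hl.resolve_left (fun h3 => by
    obtain ⟨b, hb1, hb2⟩ := hzero
    exact h3 b hb1 hb2)
  have hb0 : 0 < b := lt_trans hR.loc.a0 hab
  have hc0 : (q + X * f).coeff 0 = 1 := by
    rw [coeff_add, coeff_X_mul_zero, hR.loc.q0, add_zero]
  have hV0 : D.coeff 0 + ((ld eS 1 : (RO ℤ)ˣ) : RO ℤ) * D.coeff S = toLaurent (q + X * f) := by
    have h1 := V0_ld hR 1
    rw [pow_one] at h1
    exact h1
  have hP : ClassP b⁻¹ (D.coeff 0 + ((ld eS 1 : (RO ℤ)ˣ) : RO ℤ) * D.coeff S) := by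
    rw [hV0]
    exact classP_of hb0 hb1 hc0 hb
  have hcl0 : (cl (co phi i0) S h (ld eS 1) D).coeff 0 =
      D.coeff 0 + ((ld eS 1 : (RO ℤ)ˣ) : RO ℤ) * D.coeff S := by
    rw [cl_co hD]
    change D.coeff (0 : L) + ((ld eS 1 : (RO ℤ)ˣ) : RO ℤ) * D.coeff ((0 : L) + S) = _
    rw [zero_add]
  have hP2 := hP
  rw [fd.v00] at hP2
  obtain ⟨l⟩ := fac_ex fd (by omega)
  obtain ⟨h3, h4, h5⟩ := one_fac hE1 hMV hMm fd.c0 (fun i => (fd.st i).1) hP2
    (all_big hClp fp fd hs) l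
  obtain ⟨-, K, -, hK2, hK3, hK4⟩ := (hClp ℤ P L phi D S i0 (ld eS 1) h c n G fp fd).2 l
  have h7 : ∏ i, G i = G l := by
    rw [Finset.prod_eq_single l]
    · intro i _ hi
      exact absurd (h3 i) hi
    · intro hi
      exact absurd (Finset.mem_univ l) hi
  have hVG : cl (co phi i0) S h (ld eS 1) D = cst c * G l := by rw [fd.eq, h7]
  have hcu : IsUnit c := hpr c (fun x => by
    rw [hVG]
    exact ⟨(G l).coeff x, by rw [cst, AddMonoidAlgebra.coeff_single_zero_mul]⟩)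
  have hsupp : supp (cl (co phi i0) S h (ld eS 1) D) = supp (G l) := by
    rw [hVG, H56.supp_cst_mul fd.c0]
  refine ⟨K, ?_, ?_, ?_, hcl0.trans hV0, b, hb0, hb1, hb⟩
  · intro x hx
    rw [hsupp] at hx
    exact hK2 x hx
  · rw [hK3, ← hsupp]
    omega
  · have h8 : res K (cl (co phi i0) S h (ld eS 1) D) = cst c * res K (G l) := by
      apply AddMonoidAlgebra.ext
      apply Finsupp.ext
      intro x
      rw [res_coeff, hVG, cst, cst, AddMonoidAlgebra.coeff_single_zero_mul,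
        AddMonoidAlgebra.coeff_single_zero_mul, res_coeff]
    rw [h8]
    exact H78.dd_cst hcu (fun z => (hcu.map (evR z)).ne_zero) hK4

/-- `|q + k z f| ≥ |q + (k + 1) z f|` on the circle makes `f` zero-free in the open disc. -/
theorem f_free (hPc : PCZS) {q f : ℤ[X]} {a : ℝ} (hl : Loc q f a) (hf0 : f.coeff 0 = 1)
    (h : ∀ z : ℂ, ‖z‖ = 1 → ‖aeval z (q + X * f)‖ ≤ ‖aeval z q‖) :
    ∀ z : ℂ, ‖z‖ < 1 → aeval z f ≠ 0 := by
  intro w hw h0
  have hV0 : (-(X * f) : ℤ[X]).map (Coef.emb : ℤ →+* ℂ) ≠ 0 := by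
    intro h1
    have h2 : ((-(X * f) : ℤ[X]).map (Coef.emb : ℤ →+* ℂ)).coeff 1 = 0 := by rw [h1, coeff_zero]
    rw [coeff_map, coeff_neg, coeff_X_mul, hf0, map_neg, map_one] at h2
    exact one_ne_zero (neg_eq_zero.mp h2)
  have hVm : (-(X * f) : ℤ[X]).map (Coef.emb : ℤ →+* ℂ) =
      q.map (Coef.emb : ℤ →+* ℂ) + (-(q + X * f) : ℤ[X]).map (Coef.emb : ℤ →+* ℂ) := by
    rw [← Polynomial.map_add]
    congr 1
    ring
  have hcard := hPc (a : ℂ) (q.map (Coef.emb : ℤ →+* ℂ)) ((-(q + X * f) : ℤ[X]).map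
    (Coef.emb : ℤ →+* ℂ)) (roots_loc hl) (fun z hz => by rw [ev_map]; exact q_ne hl z hz)
    (fun z hz => by
      rw [ev_map, ev_map, map_neg, norm_neg]
      exact h z hz) (by rw [← hVm]; exact hV0)
  rw [← hVm] at hcard
  -- two zeros: `0` and `w`
  have e1 : (-(X * f) : ℤ[X]).map (Coef.emb : ℤ →+* ℂ) = X * (-(f.map (Coef.emb : ℤ →+* ℂ))) := by
    rw [Polynomial.map_neg, Polynomial.map_mul, map_X, mul_neg]
  rw [e1] at hV0 hcard
  have hX : (X : ℂ[X]) ≠ 0 := X_ne_zero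
  rw [roots_mul hV0, Multiset.filter_add, Multiset.card_add, roots_X] at hcard
  have c1 : (({(0 : ℂ)} : Multiset ℂ).filter (fun x => ‖x‖ < 1)).card = 1 := by
    rw [Multiset.filter_singleton, if_pos (by rw [norm_zero]; exact one_pos)]
    rfl
  have hfne : -(f.map (Coef.emb : ℤ →+* ℂ)) ≠ 0 := right_ne_zero_of_mul hV0
  have c2 : 0 < ((-(f.map (Coef.emb : ℤ →+* ℂ))).roots.filter (fun x => ‖x‖ < 1)).card := by
    rw [Multiset.card_pos_iff_exists_mem]
    refine ⟨w, Multiset.mem_filter.mpr ⟨(mem_roots hfne).mpr ?_, hw⟩⟩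
    change (-(f.map (Coef.emb : ℤ →+* ℂ))).eval w = 0
    rw [eval_neg, ev_map, h0, neg_zero]
  omega

/-- From `|q + (k+1) z f| ≤ |q + k z f|` (`k ≥ 1`) to `|q + z f| ≤ |q|`. -/
theorem sq_step (x y : ℂ) (k : ℝ) (hk : 1 ≤ k) (h : ‖x + (k + 1) * y‖ ≤ ‖x + k * y‖) :
    ‖x + y‖ ≤ ‖x‖ := by
  have e : ∀ t : ℝ, ‖x + t * y‖ ^ 2 = ‖x‖ ^ 2 + 2 * t * (x * (starRingEnd ℂ) y).re +
      t ^ 2 * ‖y‖ ^ 2 := by
    intro t
    rw [← Complex.normSq_eq_norm_sq, ← Complex.normSq_eq_norm_sq, ← Complex.normSq_eq_norm_sq,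
      Complex.normSq_add, Complex.normSq_mul, map_mul (starRingEnd ℂ), Complex.conj_ofReal,
      Complex.normSq_ofReal]
    have : x * ((t : ℂ) * (starRingEnd ℂ) y) = (t : ℂ) * (x * (starRingEnd ℂ) y) := by ring
    rw [this, Complex.re_ofReal_mul]
    ring
  have h1 : ‖x + ((k + 1 : ℝ) : ℂ) * y‖ ^ 2 ≤ ‖x + (k : ℂ) * y‖ ^ 2 := by
    push_cast
    exact pow_le_pow_left₀ (norm_nonneg _) h 2
  rw [e, e] at h1
  have h2 := e 1
  rw [Complex.ofReal_one, one_mul] at h2
  have h3 : ‖x + y‖ ^ 2 ≤ ‖x‖ ^ 2 := by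
    rw [h2]
    nlinarith [sq_nonneg ‖y‖, norm_nonneg y]
  exact le_of_sq_le_sq h3 (norm_nonneg _)

theorem fr_zero : Fr phi r mu 0 :=
  ⟨fun i q => Or.inl (by rw [map_zero]; rfl), fun i => map_zero _⟩

end

/-- (TER) THE TERMINAL FORM OF `D` AT A CLOSED TRIPLE WITH A RAY IN `C` IS IMPOSSIBLE. -/
theorem ter_false (hTrm : TrmS) (hPsz : Nr.PszRS) (hPmf : PmfS) (hSnr : Nr.SnrS) (hEv : EvRS)
    (hE2 : E2S) (hF1 : F1S) (hSf : SfzS) (hMV : MVS) (hMm : MmulS) (hE1 : E1S) (hPc : PCZS)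
    (hClp : ClpS) (hFD : FDS) {P L : Type} [Fintype P] [DecidableEq P] [AddCommGroup L]
    [Module.Free ℤ L] [Module.Finite ℤ L] {phi : L →+ (P → ℤ)} {D : AO ℤ L} {q f : ℤ[X]} {a : ℝ}
    {j : ℕ} {eta : L → (RO ℤ)ˣ} {C : Set L} {r : ZMod 3 → L} {e : ZMod 3 → (RO ℤ)ˣ}
    {mu : ZMod 3 → L →+ ℤ} (W : KcB phi D q f a j eta 1 C) (hu : f.coeff 0 = 1)
    (hr0 : r 0 ∈ C) (he0 : e 0 = eta (r 0)) (T : TerC phi D r e mu) : False := by
  have fp := W.ko.min.fp
  have hD := fp.dd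
  have hrk := W.ko.rk
  have hj := W.ko.j2
  obtain ⟨ha0, ha2, hθ2, hθ⟩ := ko_num W.ko
  have h2 : 2 ≤ Module.finrank ℤ L := by omega
  have hray := W.kc.ray _ hr0
  obtain ⟨eS, he, hR⟩ := W.rn _ hr0
  obtain ⟨hDz, -, -, hPrim, -, -⟩ := hE2 ℤ P L phi D hD h2
  obtain ⟨i0, h⟩ := exists_port hD hray
  have hi0 : phi (r 0) i0 = 1 := h
  obtain ⟨d1, d2⟩ := d01 T.tri hi0
  obtain ⟨K, hK1, hK2, hDK, hV0, b, hb0, hb1, hb⟩ := dd1 hSf hMV hMm hE1 hPc hClp hFD W hu hr0 h
    (by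
      intro c hc
      rw [← he0] at hc
      exact hPrim c ((H14.cst_dvd_iff c D).mpr (v_dvd T hF1 hD h hc)))
  rw [← he0] at hK1 hDK hV0
  set V := cl (co phi i0) (r 0) h (e 0) D with hV
  have hB : (e 0 : RO ℤ) * D.coeff (r 0) = toLaurent (X * f) := by
    have h1 := ld_S hR 1
    rw [pow_one] at h1
    rw [he0, he]
    exact h1
  have hD0 : D.coeff 0 = toLaurent q := W.ko.D0
  -- the new variable
  have hy0 : r 1 + r 2 ∈ Ker (co phi i0) := by
    change phi (r 1 + r 2) i0 = 0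
    rw [map_add, Pi.add_apply, d1, d2]
    rfl
  have hVy : (e 1 : RO ℤ) * (e 2 : RO ℤ) * V.coeff ⟨r 1 + r 2, hy0⟩ =
      toLaurent (q + 2 * (X * f)) := by
    have h3 := v_y T hF1 hD h (x := ⟨r 1 + r 2, hy0⟩) fr_zero (by
      change r 1 + r 2 = 0 + (r 1 + r 2)
      rw [zero_add])
    rw [← hV, zero_add, hB, hD0] at h3
    rw [h3, map_add, map_mul toLaurent 2 (X * f), map_ofNat]
  have hyne : V.coeff ⟨r 1 + r 2, hy0⟩ ≠ 0 := by
    intro h3
    rw [h3, mul_zero] at hVy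
    have h4 := congrArg (fun p : ℤ[X] => p.coeff 0) (toLaurent_eq_zero.mp hVy.symm)
    simp only [coeff_zero] at h4
    rw [coeff_add, hR.loc.q0, mul_coeff_zero, coeff_X_mul_zero, mul_zero, add_zero] at h4
    exact one_ne_zero h4
  obtain ⟨y, hy⟩ : ∃ y : K, y = ⟨⟨r 1 + r 2, hy0⟩, hK1 _ hyne⟩ := ⟨_, rfl⟩
  have hyc : (res K V).coeff y = V.coeff ⟨r 1 + r 2, hy0⟩ := by rw [res_coeff, hy]
  have hc0 : (res K V).coeff 0 = toLaurent (q + X * f) := hV0
  have hfin : Module.finrank ℤ K = 2 * j - 1 := by omega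
  have hyr : ((y : Ker (co phi i0)) : L) = r 1 + r 2 := by rw [hy]
  -- the ray
  have hrayY : Ray (res K V) y := by
    refine ⟨?_, ?_, ((lamO phi r).comp (incl (Ker (co phi i0)))).comp (incl K), ?_, ?_⟩
    · change (res K V).coeff y ≠ 0
      rw [hyc]
      exact hyne
    · intro h3
      have h4 : r 1 + r 2 = 0 := by
        rw [← hyr, h3]
        rfl
      obtain ⟨p, hp⟩ := T.tri.port hD.inj 1
      have h5 := (T.tri.dis 1 2 (by decide) p).resolve_left (by rw [hp]; exact one_ne_zero)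
      have h6 := congrArg (fun v => phi v p) h4
      simp only [map_add, Pi.add_apply, map_zero, Pi.zero_apply] at h6
      omega
    · change lamO phi r ((y : Ker (co phi i0)) : L) = 0
      rw [hyr, map_add, lamO_r, lamO_r, add_zero]
    · intro x hx hx0 hxy
      change 0 < lamO phi r ((x : Ker (co phi i0)) : L)
      have hx' : (x : Ker (co phi i0)) ∈ supp V := hx
      rcases v_supp T hF1 hD h hx' with h3 | h3
      · refine lamO_pos hD h3 (fun h4 => hx0 (Subtype.ext (Subtype.ext h4))) ?_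
        by_contra hcon
        push Not at hcon
        apply hx'
        rw [hV, cl_co hD, hcon.1, hcon.2, mul_zero, add_zero]
      · have h4 : ((x : Ker (co phi i0)) : L) = (((x : Ker (co phi i0)) : L) - (r 1 + r 2)) +
            (r 1 + r 2) := by abel
        rw [h4, map_add, map_add (lamO phi r) (r 1) (r 2), lamO_r, lamO_r, add_zero, add_zero]
        refine lamO_pos hD h3 (fun h5 => hxy (Subtype.ext (Subtype.ext ?_))) ?_
        · rw [hyr, ← sub_eq_zero, h5]
        · by_contra hcon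
          push Not at hcon
          apply hx'
          have h6 := v_y T hF1 hD h h3 h4
          rw [hcon.1, hcon.2, mul_zero, mul_zero, add_zero] at h6
          exact uz (e := e 1 * e 2) (by rw [Units.val_mul]; exact h6)
  -- the inequality on the circle
  have h2K : 2 ≤ Module.finrank ℤ K := by omega
  obtain ⟨-, -, -, -, -, hKr⟩ := hE2 ℤ P K _ (res K V) hDK h2K
  have hle := (hKr y hrayY).1
  have hev : ∀ z : ℂ, ‖z‖ = 1 → ‖aeval z (q + X * f)‖ ≤ ‖aeval z q‖ := by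
    intro z hz
    obtain ⟨w, rfl⟩ := circle_of z hz
    have h3 := hle w
    rw [hyc, hc0, evR_poly] at h3
    have h4 : ‖evR w (V.coeff ⟨r 1 + r 2, hy0⟩)‖ = ‖aeval (w : ℂ) (q + 2 * (X * f))‖ := by
      rw [← evR_poly, ← hVy, map_mul, map_mul, norm_mul, norm_mul,
        (hEv ℤ).2.1 w _ (e 1).isUnit, (hEv ℤ).2.1 w _ (e 2).isUnit, one_mul, one_mul]
    rw [h4] at h3
    simp only [map_add, map_mul, aeval_X, map_ofNat] at h3 ⊢
    refine sq_step _ _ 1 le_rfl ?_
    have e1 : ((1 : ℝ) : ℂ) = 1 := Complex.ofReal_one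
    rw [e1, one_mul]
    have e2 : (1 : ℂ) + 1 = 2 := by norm_num
    rw [e2]
    exact h3
  have hff := f_free hPc hR.loc hu hev
  -- the count
  have hfin2 := KO21.ter_count hTrm hPsz hPmf hSnr hEv (eta := -(e 1 * e 2)) (θB := b⁻¹)
    (θ := a⁻¹) (Q := toLaurent q) (V := toLaurent (X * -f)) hDK h2K hrayY
    (by
      rw [hc0]
      exact classP_of hb0 hb1 (by rw [coeff_add, coeff_X_mul_zero, hR.loc.q0, add_zero]) hb)
    (by
      rw [hc0, hyc, Units.val_neg, neg_mul, Units.val_mul, hVy, ← map_neg, ← map_add]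
      congr 1
      ring)
    (by
      refine ⟨0, q + X * f, -f, ?_, ?_, ?_, ?_, ?_⟩
      · rw [hc0, LaurentPolynomial.T_zero, one_mul]
      · rw [zero_add, map_mul, toLaurent_X]
      · rw [coeff_add, coeff_X_mul_zero, hR.loc.q0, add_zero, map_one, norm_one]
      · rw [coeff_neg, hu, map_neg, map_one, norm_neg, norm_one]
      · intro z hz
        rw [ev_map, map_neg]
        exact neg_ne_zero.mpr (hff z hz))
    (by
      rw [hc0, ← map_add]
      congr 1
      ring)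
    hθ2
    (by
      have := classP_q hR
      rwa [hD0] at this)
    (by
      intro z
      rw [← hD0]
      exact hDz z)
    (by rw [hfin, Nat.odd_iff]; omega)
  rw [hfin] at hfin2
  have h9 : (((2 * j - 1 : ℕ) : ℝ)) = 2 * j - 1 := by
    rw [Nat.cast_sub (by omega)]
    push_cast
    ring
  rw [h9] at hfin2
  linarith

end Pool.Agent.B5.KO12
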