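import Pool.Agent.Lib.MP_b5021c_nt.BP.H80.Cnt
import Pool.Agent.Lib.MP_b5021c_nt.KO.H90.M1a
import Pool.Agent.Lib.MP_b5021c_nt.H40.Pca
import Pool.Agent.Lib.MP_b5021c_nt.IfaceOF

/-!
# MP_b5021c_nt, all `θ`, K ODD, leaf O4, `l = 3`, ALPHA, row R7: a mutual pair of positive order
lies in a factor of class `V(m)` with `m ≥ 3` (helper12)
-/

set_option linter.unusedSectionVars false

namespace Pool.Agent.B5.KO12

open scoped LaurentPolynomial
open Polynomial
open Pool.Agent.B5.BP57 (injO binO)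

/-- Outside the open cardioid. -/
theorem nine_four {v : ℂ} (h : ∀ x : ℂ, ‖x‖ < 1 → (1 - x) ^ 2 ≠ v) :
    9 * ‖v‖ ≤ 4 * ‖v - 1‖ ^ 2 := by
  have h1 : 2 * (‖v‖ + v.re) ≤ ‖v‖ ^ 2 := by
    by_contra hc
    push Not at hc
    obtain ⟨x, hx, hv⟩ := KO90.card_crit hc
    exact h x hx hv
  have h2 : ‖v - 1‖ ^ 2 = ‖v‖ ^ 2 - 2 * v.re + 1 := by
    rw [← Complex.normSq_eq_norm_sq, ← Complex.normSq_eq_norm_sq, Complex.normSq_apply,
      Complex.normSq_apply, Complex.sub_re, Complex.sub_im, Complex.one_re, Complex.one_im]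
    ring
  have h3 := Complex.re_le_norm v
  have h4 := norm_nonneg v
  rw [h2]
  rcases le_total ‖v‖ 4 with h5 | h5
  · nlinarith
  · nlinarith

theorem face_ineq {a b : ℂ} (h : ∀ y : ℂ, ‖y‖ < 1 → a + b * (y + y - y * y) ≠ 0) :
    9 * ‖b * (a + b)‖ ≤ 4 * ‖a‖ ^ 2 := by
  by_cases hb : b = 0
  · rw [hb]
    simp
  have h1 : ∀ x : ℂ, ‖x‖ < 1 → (1 - x) ^ 2 ≠ (a + b) / b := by
    intro x hx hv
    rw [eq_div_iff hb] at hv
    apply h x hx
    linear_combination -hv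
  have h2 := nine_four h1
  have h3 : (a + b) / b - 1 = a / b := by
    field_simp
    ring
  have hb0 : 0 < ‖b‖ := norm_pos_iff.mpr hb
  rw [h3, norm_div, norm_div, div_pow] at h2
  have h4 : 9 * (‖a + b‖ / ‖b‖) * ‖b‖ ^ 2 ≤ 4 * (‖a‖ ^ 2 / ‖b‖ ^ 2) * ‖b‖ ^ 2 :=
    mul_le_mul_of_nonneg_right h2 (by positivity)
  rw [norm_mul]
  calc 9 * (‖b‖ * ‖a + b‖) = 9 * (‖a + b‖ / ‖b‖) * ‖b‖ ^ 2 := by
        field_simp
    _ ≤ 4 * (‖a‖ ^ 2 / ‖b‖ ^ 2) * ‖b‖ ^ 2 := h4
    _ = 4 * ‖a‖ ^ 2 := by field_simp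

/-- The lowest coefficients. -/
theorem lead_ineq {p g : ℤ[X]} {k : ℕ} (hk : 0 < k) (hg : g.coeff 0 ≠ 0)
    (hp : ∀ z : ℂ, ‖z‖ ≤ 1 → (p.map (Coef.emb : ℤ →+* ℂ)).eval z ≠ 0)
    (h : ∀ z : ℂ, ‖z‖ = 1 → ∀ y : ℂ, ‖y‖ < 1 → (p.map (Coef.emb : ℤ →+* ℂ)).eval z +
      (z ^ k * (g.map (Coef.emb : ℤ →+* ℂ)).eval z) * (y + y - y * y) ≠ 0) :
    9 ≤ 4 * |(p.coeff 0 : ℝ)| := by
  set P := p.map (Coef.emb : ℤ →+* ℂ) with hP
  set G := g.map (Coef.emb : ℤ →+* ℂ) with hG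
  have h1 := H40.maxp (C 9 * (G * (P + X ^ k * G))) (P * P) 4
    (fun z hz => by
      rw [eval_mul]
      exact mul_ne_zero (hp z hz) (hp z hz))
    (by
      intro z hz
      have h2 := face_ineq (h z hz)
      rw [eval_mul, eval_C, eval_mul, eval_add, eval_mul, eval_pow, eval_X, eval_mul, norm_mul,
        norm_mul, norm_mul]
      rw [norm_mul, norm_mul, norm_pow, hz, one_pow, one_mul] at h2
      have h3 : ‖(9 : ℂ)‖ = 9 := by norm_num
      rw [h3]
      nlinarith) 0 (by simp)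
  rw [eval_mul, eval_C, eval_mul, eval_add, eval_mul, eval_pow, eval_X, eval_mul, zero_pow hk.ne',
    zero_mul, add_zero, norm_mul, norm_mul, norm_mul] at h1
  have hP0 : ‖P.eval 0‖ = |(p.coeff 0 : ℝ)| := by
    rw [← coeff_zero_eq_eval_zero, hP, coeff_map]
    change ‖((p.coeff 0 : ℤ) : ℂ)‖ = _
    rw [Complex.norm_intCast]
  have hG0 : ‖G.eval 0‖ = |(g.coeff 0 : ℝ)| := by
    rw [← coeff_zero_eq_eval_zero, hG, coeff_map]
    change ‖((g.coeff 0 : ℤ) : ℂ)‖ = _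
    rw [Complex.norm_intCast]
  have h9 : ‖(9 : ℂ)‖ = 9 := by norm_num
  have hpp : 0 < ‖P.eval 0‖ := norm_pos_iff.mpr (hp 0 (by simp))
  rw [h9] at h1
  have hg1 : (1 : ℝ) ≤ ‖G.eval 0‖ := by
    rw [hG0]
    have h5 : (1 : ℤ) ≤ |g.coeff 0| := Int.one_le_abs hg
    exact_mod_cast h5
  rw [← hP0]
  have h6 : 9 * (1 * ‖P.eval 0‖) ≤ 4 * (‖P.eval 0‖ * ‖P.eval 0‖) := by
    refine le_trans ?_ h1
    gcongr
  nlinarith

section

variable {P : Type} [Fintype P] [DecidableEq P] {L : Type} [AddCommGroup L] [Module.Free ℤ L]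
  [Module.Finite ℤ L] {phi : L →+ (P → ℤ)} {D : AO ℤ L}

/-- The face of two disjoint exponents. -/
theorem face_ex (hFcm : FcmS) (hD : DD phi D) (h2 : 2 ≤ Module.finrank ℤ L) {r0 r1 : L}
    (b0 : Bin phi r0) (b1 : Bin phi r1) (n0 : r0 ≠ 0) (n1 : r1 ≠ 0)
    (hdis : ∀ p, phi r0 p = 0 ∨ phi r1 p = 0) (z : Circle) {x y : ℂ} (hx : ‖x‖ < 1)
    (hy : ‖y‖ < 1) :
    evR z (D.coeff 0) + evR z (D.coeff r0) * x + evR z (D.coeff r1) * y +
      evR z (D.coeff (r0 + r1)) * (x * y) ≠ 0 := by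
  have h := hFcm ℤ P L phi D 2 ![r0, r1] hD h2 (by
      intro i
      fin_cases i
      · exact b0
      · exact b1) (by
      intro i
      fin_cases i
      · exact n0
      · exact n1) (by
      intro i j hij p
      fin_cases i <;> fin_cases j
      · exact absurd rfl hij
      · exact hdis p
      · exact (hdis p).symm
      · exact absurd rfl hij) z ![x, y] (by
      intro i
      fin_cases i
      · exact hx
      · exact hy)
  have hu : (Finset.univ : Finset (Finset (Fin 2))) = {∅, {0}, {1}, {0, 1}} := by decide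
  have s1 : ∑ i ∈ ({0, 1} : Finset (Fin 2)), ![r0, r1] i = r0 + r1 := by
    rw [Finset.sum_pair (by decide)]
    rfl
  have s2 : ∏ i ∈ ({0, 1} : Finset (Fin 2)), ![x, y] i = x * y := by
    rw [Finset.prod_pair (by decide)]
    rfl
  rw [hu, Finset.sum_insert (by decide), Finset.sum_insert (by decide),
    Finset.sum_insert (by decide)] at h
  simp only [Finset.sum_empty, Finset.prod_empty, Finset.sum_singleton, Finset.prod_singleton,
    Matrix.cons_val_zero, Matrix.cons_val_one, mul_one, s1, s2] at h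
  intro h3
  apply h
  linear_combination h3

/-- A mutual pair of positive order in an element of class `V(m)`: `m ≥ 3`. -/
theorem dd_three (hFcm : FcmS) (hE2 : E2S) (hEv : EvRS) (hD : DD phi D)
    (hr : 2 ≤ Module.finrank ℤ L) {m : ℕ}
    (hV : ClassV (m : ℝ) (D.coeff 0)) {r0 r1 : L} (b0 : Bin phi r0) (b1 : Bin phi r1)
    (n0 : r0 ≠ 0) (n1 : r1 ≠ 0) (hdis : ∀ p, phi r0 p = 0 ∨ phi r1 p = 0) {e0 e1 : (RO ℤ)ˣ}
    (h1 : (e1 : RO ℤ) * D.coeff r1 = (e0 : RO ℤ) * D.coeff r0)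
    (h01 : (e0 : RO ℤ) * (e1 : RO ℤ) * D.coeff (r0 + r1) = -((e0 : RO ℤ) * D.coeff r0))
    {n k : ℤ} {p g : ℤ[X]} (hp : D.coeff 0 = LaurentPolynomial.T n * toLaurent p)
    (hp0 : p.coeff 0 ≠ 0)
    (hg : (e0 : RO ℤ) * D.coeff r0 = LaurentPolynomial.T k * toLaurent g) (hg0 : g.coeff 0 ≠ 0)
    (hnk : n < k) : 3 ≤ m := by
  obtain ⟨c0, -⟩ := hE2 ℤ P L phi D hD hr
  obtain ⟨n', p', hp', hpm, hp'0, hz⟩ := H78.classV_nf hV
  obtain ⟨rfl, rfl⟩ := H78.T_eq hp0 hp'0 (hp.symm.trans hp')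
  obtain ⟨s, hs⟩ : ∃ s : ℕ, k = n + s := ⟨(k - n).toNat, by omega⟩
  have hs0 : 0 < s := by omega
  have evD : ∀ z : Circle, evR z (D.coeff 0) =
      (z : ℂ) ^ n * (p.map (Coef.emb : ℤ →+* ℂ)).eval (z : ℂ) := fun z => by
    rw [hp, H96.ev_T_mul]
  have evA : ∀ z : Circle, evR z (e0 : RO ℤ) * evR z (D.coeff r0) =
      (z : ℂ) ^ n * ((z : ℂ) ^ s * (g.map (Coef.emb : ℤ →+* ℂ)).eval (z : ℂ)) := fun z => by
    rw [← map_mul, hg, H96.ev_T_mul, hs, zpow_add₀ (Circle.coe_ne_zero z), zpow_natCast]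
    ring
  have hpz : ∀ z : ℂ, ‖z‖ ≤ 1 → (p.map (Coef.emb : ℤ →+* ℂ)).eval z ≠ 0 := by
    intro z hz1
    rcases hz1.lt_or_eq with h | h
    · exact hz z h
    · obtain ⟨w, rfl⟩ := H93.exists_circle h
      have h2 := c0 w
      rw [evD w] at h2
      exact right_ne_zero_of_mul h2
  have h3 := lead_ineq hs0 hg0 hpz (by
    intro z hz1 y hy h4
    obtain ⟨w, rfl⟩ := H93.exists_circle hz1
    have hu : ∀ u : (RO ℤ)ˣ, ‖evR w (u : RO ℤ)‖ = 1 := fun u => (hEv ℤ).2.1 w _ u.isUnit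
    have hy0 : ‖evR w (e0 : RO ℤ) * y‖ < 1 := by rw [norm_mul, hu, one_mul]; exact hy
    have hy1 : ‖evR w (e1 : RO ℤ) * y‖ < 1 := by rw [norm_mul, hu, one_mul]; exact hy
    apply face_ex hFcm hD hr b0 b1 n0 n1 hdis w hy0 hy1
    have a1 : evR w (e1 : RO ℤ) * evR w (D.coeff r1) =
        evR w (e0 : RO ℤ) * evR w (D.coeff r0) := by
      rw [← map_mul, ← map_mul, h1]
    have a2 : evR w (e0 : RO ℤ) * evR w (e1 : RO ℤ) * evR w (D.coeff (r0 + r1)) =
        -(evR w (e0 : RO ℤ) * evR w (D.coeff r0)) := by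
      rw [← map_mul, ← map_mul, ← map_mul, h01, map_neg]
    have a3 := evA w
    have a4 := evD w
    linear_combination y * a1 + y * y * a2 + a4 + (2 * y - y * y) * a3 + (w : ℂ) ^ n * h4)
  rw [hpm] at h3
  have h4 : (9 : ℝ) ≤ 4 * (m : ℝ) := h3
  have h5 : 9 ≤ 4 * m := by exact_mod_cast h4
  omega

end

section

variable {P : Type} [Fintype P] [DecidableEq P] {L : Type} [AddCommGroup L] [Module.Free ℤ L]
  [Module.Finite ℤ L]

/-- Two exponents without a common port are independent. -/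
theorem two_le_rank {psi : L →+ (P → ℤ)} (hinj : Function.Injective psi) {a b : L}
    (ha : a ≠ 0) (hb : b ≠ 0) (hdis : ∀ p, psi a p = 0 ∨ psi b p = 0) :
    2 ≤ Module.finrank ℤ L := by
  have hex : ∀ x : L, x ≠ 0 → ∃ p, psi x p ≠ 0 := by
    intro x hx
    by_contra hcon
    push Not at hcon
    apply hx
    apply hinj
    rw [map_zero]
    funext p
    exact hcon p
  obtain ⟨p, hp⟩ := hex a ha
  obtain ⟨q, hq⟩ := hex b hb
  have hli : LinearIndependent ℤ ![a, b] := by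
    rw [LinearIndependent.pair_iff]
    intro s t hst
    have h1 := fun j => congrArg (fun x => psi x j) hst
    simp only [map_add, map_zsmul, Pi.add_apply, Pi.smul_apply, smul_eq_mul, map_zero,
      Pi.zero_apply] at h1
    have h2 := h1 p
    rw [(hdis p).resolve_left hp, mul_zero, add_zero] at h2
    have h3 := h1 q
    rw [(hdis q).resolve_right hq, mul_zero, zero_add] at h3
    exact ⟨(mul_eq_zero.mp h2).resolve_right hp, (mul_eq_zero.mp h3).resolve_right hq⟩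
  have h4 := hli.fintype_card_le_finrank
  simpa using h4

/-- Exponents of a product with binary exponents. -/
theorem prod_ports (hW : WWfS) {psi : L →+ (P → ℤ)} {G H : AO ℤ L}
    (bin : ∀ a ∈ supp (G * H), Bin psi a) (hG : G.coeff 0 ≠ 0) (hH : H.coeff 0 ≠ 0) (j : P) :
    (∀ a ∈ supp G, psi a j = 0) ∨ (∀ b ∈ supp H, psi b j = 0) := by
  have hw : ∀ a ∈ supp (G * H), WW psi ∅ Finset.univ a := by
    intro a ha
    exact ⟨fun j _ => bin a ha j, Or.inl fun i hi => absurd hi (Finset.notMem_empty i),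
      fun j _ hj => absurd (Finset.mem_univ j) hj⟩
  exact (hW ℤ P L psi ∅ Finset.univ G H hw hG hH).2 j (Finset.mem_univ j)

/-- The coefficient at a sum of exponents of the two factors. -/
theorem prod_pair (hW : WWfS) {psi : L →+ (P → ℤ)} (inj : Function.Injective psi) {G H : AO ℤ L}
    (bin : ∀ a ∈ supp (G * H), Bin psi a) (hG : G.coeff 0 ≠ 0) (hH : H.coeff 0 ≠ 0) {a b : L}
    (ha : a ∈ supp G) (hb : b ∈ supp H) : (G * H).coeff (a + b) = G.coeff a * H.coeff b := by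
  classical
  have hj := prod_ports hW bin hG hH
  have hu : UniqueAdd G.coeff.support H.coeff.support a b := by
    intro a' b' ha' hb' hab
    have ha1 : a' ∈ supp G := by simpa [supp] using ha'
    have hb1 : b' ∈ supp H := by simpa [supp] using hb'
    have h1 : ∀ j, psi a' j = psi a j ∧ psi b' j = psi b j := by
      intro j
      have h2 := congrArg (fun x => psi x j) hab
      simp only [map_add, Pi.add_apply] at h2
      rcases hj j with h | h
      · have h3 := h a ha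
        have h4 := h a' ha1
        omega
      · have h3 := h b hb
        have h4 := h b' hb1
        omega
    exact ⟨inj (funext fun j => (h1 j).1), inj (funext fun j => (h1 j).2)⟩
  exact AddMonoidAlgebra.coeff_mul_add_of_uniqueAdd hu

/-- A sum of two exponents of a factor which is an exponent of the product. -/
theorem prod_mem (hW : WWfS) {psi : L →+ (P → ℤ)} (inj : Function.Injective psi) {G H : AO ℤ L}
    (bin : ∀ a ∈ supp (G * H), Bin psi a) (hG : G.coeff 0 ≠ 0) (hH : H.coeff 0 ≠ 0) {a b : L}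
    (ha : a ∈ supp G) (hb : b ∈ supp G) (hab : (G * H).coeff (a + b) ≠ 0) :
    a + b ∈ supp G := by
  classical
  have hj := prod_ports hW bin hG hH
  have h1 : a + b ∈ (G * H).coeff.support := Finsupp.mem_support_iff.mpr hab
  have h2 := AddMonoidAlgebra.support_coeff_mul_subset _ _ h1
  obtain ⟨x, hx, y, hy, hxy⟩ := Finset.mem_add.mp h2
  have hx1 : x ∈ supp G := by simpa [supp] using hx
  have hy1 : y ∈ supp H := by simpa [supp] using hy
  have hy0 : y = 0 := by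
    apply inj
    rw [map_zero]
    funext j
    rw [Pi.zero_apply]
    rcases hj j with h | h
    · have h3 := congrArg (fun x => psi x j) hxy
      simp only [map_add, Pi.add_apply] at h3
      have h4 := h a ha
      have h5 := h b hb
      have h6 := h x hx1
      omega
    · exact h y hy1
  rw [hy0, add_zero] at hxy
  rw [← hxy]
  exact hx1

end

section

variable {P : Type} [Fintype P] [DecidableEq P] {L : Type} [AddCommGroup L] [Module.Free ℤ L]
  [Module.Finite ℤ L] {phi : L →+ (P → ℤ)} {D : AO ℤ L}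

/-- LEMMA T: in a closing, a mutual pair of rays of positive order lies in one factor, and this
factor has a class `V(m)` with `m ≥ 3`. -/
theorem fd_three (hFcm : FcmS) (hE2 : E2S) (hEv : EvRS) (hG0 : G0S) (hC0 : Coeff0S)
    (hE1 : E1S) (hW : WWfS) (hRF : RayFacS) (hR : ResWDS) (hRS : ResStS) {S : L} {i0 : P}
    {eta : (RO ℤ)ˣ} {h : co phi i0 S = 1} {c : RO ℤ} {n : ℕ}
    {G : Fin n → AO ℤ (Ker (co phi i0))} (hI : ImS phi S) (fd : FD phi D S i0 eta h c n G)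
    {N : ℝ} (hV : ClassV N (D.coeff 0 + (eta : RO ℤ) * D.coeff S)) {r0 r1 : Ker (co phi i0)}
    (y0 : Ray (cl (co phi i0) S h eta D) r0) (y1 : Ray (cl (co phi i0) S h eta D) r1)
    (hdis : ∀ p, phO phi S i0 r0 p = 0 ∨ phO phi S i0 r1 p = 0) {e0 e1 : (RO ℤ)ˣ}
    (h1 : (e1 : RO ℤ) * (cl (co phi i0) S h eta D).coeff r1 =
      (e0 : RO ℤ) * (cl (co phi i0) S h eta D).coeff r0)
    (h01 : (e0 : RO ℤ) * (e1 : RO ℤ) * (cl (co phi i0) S h eta D).coeff (r0 + r1) =
      -((e0 : RO ℤ) * (cl (co phi i0) S h eta D).coeff r0))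
    {s t : ℤ} {p g : ℤ[X]}
    (hp : (cl (co phi i0) S h eta D).coeff 0 = LaurentPolynomial.T s * toLaurent p)
    (hp0 : p.coeff 0 ≠ 0)
    (hg : (e0 : RO ℤ) * (cl (co phi i0) S h eta D).coeff r0 =
      LaurentPolynomial.T t * toLaurent g)
    (hg0 : g.coeff 0 ≠ 0) (hst : s < t) :
    ∃ (l : Fin n) (m : ℕ), 3 ≤ m ∧ ClassV (m : ℝ) ((G l).coeff 0) ∧ r0 ∈ supp (G l) ∧
      r1 ∈ supp (G l) := by
  classical
  have inj := injO (i0 := i0) hI h
  have hG00 : ∀ i, (G i).coeff 0 ≠ 0 := fun i => (fd.st i).1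
  obtain ⟨l, hl⟩ := hRF ℤ P L phi D S i0 eta h c n G fd r0 y0
  set V := cl (co phi i0) S h eta D with hVd
  set H : AO ℤ (Ker (co phi i0)) := cst c * ∏ i ∈ Finset.univ.erase l, G i with hH
  have hsplit : V = G l * H := by
    rw [hVd, fd.eq, hH, ← Finset.mul_prod_erase Finset.univ G (Finset.mem_univ l)]
    ring
  have hG0s := hG0 ℤ P L phi D S i0 eta h fd.cc
  obtain ⟨-, lam, hpos, -⟩ := id hG0s.1
  have hGpos : ∀ i, Pos lam (G i) := fun i => (fd.full i lam hpos).2.1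
  have hprod0 := fun s : Finset (Fin n) => H29.prod_coeff_zero hC0 G lam hGpos s
  have hH0 : H.coeff 0 = c * ∏ i ∈ Finset.univ.erase l, (G i).coeff 0 := by
    rw [hH, H56.cstm, (hprod0 _).1]
  have hP0 : ∏ i ∈ Finset.univ.erase l, (G i).coeff 0 ≠ 0 :=
    Finset.prod_ne_zero_iff.mpr fun i _ => hG00 i
  have hH00 : H.coeff 0 ≠ 0 := by
    rw [hH0]
    exact mul_ne_zero fd.c0 hP0
  have hbinV : ∀ a ∈ supp (G l * H), Bin (phO phi S i0) a := by
    intro a ha
    rw [← hsplit] at ha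
    exact binO a (hG0s.2.2.2.1 a ha)
  have hbinV' : ∀ a ∈ supp (H * G l), Bin (phO phi S i0) a := by
    intro a ha
    rw [mul_comm] at ha
    exact hbinV a ha
  have hco : ∀ a ∈ supp (G l), V.coeff a = (G l).coeff a * H.coeff 0 := by
    intro a ha
    rw [hsplit]
    exact H67.coeff_disj hW (phO phi S i0) inj (G l) H hbinV (hG00 l) hH00 a ha
  have hcoH : ∀ a ∈ supp H, V.coeff a = H.coeff a * (G l).coeff 0 := by
    intro a ha
    rw [hsplit, mul_comm (G l) H]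
    exact H67.coeff_disj hW (phO phi S i0) inj H (G l) hbinV' hH00 (hG00 l) a ha
  have hV0 : V.coeff 0 = (G l).coeff 0 * H.coeff 0 := hco 0 (hG00 l)
  have hA0 : (e0 : RO ℤ) * V.coeff r0 ≠ 0 := mul_ne_zero (Units.ne_zero e0) y0.1
  -- the second ray
  have hr1 : r1 ∈ supp (G l) := by
    obtain ⟨l', hl'⟩ := hRF ℤ P L phi D S i0 eta h c n G fd r1 y1
    by_cases hll : l' = l
    · rw [hll] at hl'
      exact hl'
    exfalso
    have hl'e : l' ∈ Finset.univ.erase l := Finset.mem_erase.mpr ⟨hll, Finset.mem_univ _⟩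
    set H' : AO ℤ (Ker (co phi i0)) := cst c * ∏ i ∈ (Finset.univ.erase l).erase l', G i with hH'
    have hsp' : H = G l' * H' := by
      rw [hH, hH', ← Finset.mul_prod_erase (Finset.univ.erase l) G hl'e]
      ring
    have hH'0 : H'.coeff 0 ≠ 0 := by
      rw [hH', H56.cstm, (hprod0 _).1]
      exact mul_ne_zero fd.c0 (Finset.prod_ne_zero_iff.mpr fun i _ => hG00 i)
    have hbinH : ∀ a ∈ supp (G l' * H'), Bin (phO phi S i0) a := by
      intro a ha
      rw [← hsp'] at ha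
      apply hbinV a
      rw [← hsplit]
      change V.coeff a ≠ 0
      rw [hcoH a ha]
      exact mul_ne_zero ha (hG00 l)
    have hr1H : r1 ∈ supp H := by
      change H.coeff r1 ≠ 0
      rw [hsp', H67.coeff_disj hW (phO phi S i0) inj (G l') H' hbinH (hG00 l') hH'0 r1 hl']
      exact mul_ne_zero hl' hH'0
    have h3 : V.coeff (r0 + r1) = (G l).coeff r0 * H.coeff r1 := by
      rw [hsplit]
      exact prod_pair hW inj hbinV (hG00 l) hH00 hl hr1H
    have h4 : V.coeff (r0 + r1) * V.coeff 0 = V.coeff r0 * V.coeff r1 := by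
      rw [h3, hV0, hco r0 hl, hcoH r1 hr1H]
      ring
    have h5 : (e0 : RO ℤ) * V.coeff r0 * ((e0 : RO ℤ) * V.coeff r0 + V.coeff 0) = 0 := by
      linear_combination -((e0 : RO ℤ) * V.coeff r0) * h1 + V.coeff 0 * h01 -
        (e0 : RO ℤ) * (e1 : RO ℤ) * h4
    have h6 : (e0 : RO ℤ) * V.coeff r0 + V.coeff 0 = 0 := (mul_eq_zero.mp h5).resolve_left hA0
    have h7 : (LaurentPolynomial.T t * toLaurent g : RO ℤ) =
        LaurentPolynomial.T s * toLaurent (-p) := by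
      rw [← hg, map_neg, mul_neg, ← hp]
      exact eq_neg_of_add_eq_zero_left h6
    obtain ⟨h8, -⟩ := H78.T_eq hg0 (by rw [coeff_neg]; exact neg_ne_zero.mpr hp0) h7
    omega
  have hV1 : V.coeff r0 = (G l).coeff r0 * H.coeff 0 := hco r0 hl
  have hV2 : V.coeff r1 = (G l).coeff r1 * H.coeff 0 := hco r1 hr1
  have hV3n : V.coeff (r0 + r1) ≠ 0 := by
    intro h3
    rw [h3, mul_zero] at h01
    exact hA0 (neg_eq_zero.mp h01.symm)
  have hr01 : r0 + r1 ∈ supp (G l) := by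
    rw [hsplit] at hV3n
    exact prod_mem hW inj hbinV (hG00 l) hH00 hl hr1 hV3n
  have hV3 : V.coeff (r0 + r1) = (G l).coeff (r0 + r1) * H.coeff 0 := hco _ hr01
  -- the class
  have hcls := hV
  rw [← hG0s.2.2.1] at hcls
  change ClassV N (V.coeff 0) at hcls
  rw [hV0] at hcls
  obtain ⟨N1, -, hN1, -, -⟩ := (hE1 ℤ).1 _ _ _ hcls
  obtain ⟨m, hm, rfl⟩ := O1.H12.classV_nat hN1
  refine ⟨l, m, ?_, hN1, hl, hr1⟩
  -- the factor on its lattice
  obtain ⟨K, hsat, hU, hKr, hirr, hun, hrk⟩ := hR ℤ (Ker (co phi i0)) (G l) (fd.irr l).ne_zero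
  have hDD : DD ((phO phi S i0).comp (incl K)) (res K (G l)) :=
    ⟨inj.comp fun _ _ hh => Subtype.ext hh, fun a ha => binO (a : Ker (co phi i0))
      (fd.ww l _ ha), (hRS ℤ (Ker (co phi i0)) (G l) K hsat hU).mp (fd.st l), hun (fd.un l),
      hirr (fd.irr l), by rw [hrk, hKr]⟩
  obtain ⟨x0, hx0⟩ : ∃ x : K, (x : Ker (co phi i0)) = r0 := ⟨⟨r0, hU r0 hl⟩, rfl⟩
  obtain ⟨x1, hx1⟩ : ∃ x : K, (x : Ker (co phi i0)) = r1 := ⟨⟨r1, hU r1 hr1⟩, rfl⟩
  have n0 : x0 ≠ 0 := by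
    rintro rfl
    exact y0.2.1 hx0.symm
  have n1 : x1 ≠ 0 := by
    rintro rfl
    exact y1.2.1 hx1.symm
  have hd' : ∀ p, ((phO phi S i0).comp (incl K)) x0 p = 0 ∨
      ((phO phi S i0).comp (incl K)) x1 p = 0 := by
    intro p
    have h3 := hdis p
    rw [← hx0, ← hx1] at h3
    exact h3
  have c0 : ∀ x : K, (res K (G l)).coeff x = (G l).coeff (x : Ker (co phi i0)) := fun x => rfl
  obtain ⟨a, g', hg'0, hg'⟩ := H67.nf_exists (p := (e0 : RO ℤ) * (G l).coeff r0)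
    (mul_ne_zero (Units.ne_zero e0) hl)
  obtain ⟨b, h', hh'0, hh'⟩ := H67.nf_exists hH00
  obtain ⟨d, p', hp', -, hp'0, -⟩ := H78.classV_nf hN1
  have e3 : (LaurentPolynomial.T s * toLaurent p : RO ℤ) =
      LaurentPolynomial.T (d + b) * toLaurent (p' * h') := by
    rw [← hp, hV0, hp', hh', LaurentPolynomial.T_add, map_mul]
    ring
  have e4 : (LaurentPolynomial.T t * toLaurent g : RO ℤ) =
      LaurentPolynomial.T (a + b) * toLaurent (g' * h') := by
    rw [← hg, hV1, ← mul_assoc, hg', hh', LaurentPolynomial.T_add, map_mul]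
    ring
  obtain ⟨e5, -⟩ := H78.T_eq hp0 (by rw [mul_coeff_zero]; exact mul_ne_zero hp'0 hh'0) e3
  obtain ⟨e6, -⟩ := H78.T_eq hg0 (by rw [mul_coeff_zero]; exact mul_ne_zero hg'0 hh'0) e4
  refine dd_three hFcm hE2 hEv hDD (two_le_rank hDD.inj n0 n1 hd') (m := m) ?_
    (hDD.bin x0 ?_) (hDD.bin x1 ?_) n0 n1 hd' (e0 := e0) (e1 := e1) ?_ ?_ (n := d) (k := a)
    (p := p') (g := g') ?_ hp'0 ?_ hg'0 (by omega)
  · exact hN1
  · change (res K (G l)).coeff x0 ≠ 0
    rw [c0, hx0]; exact hl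
  · change (res K (G l)).coeff x1 ≠ 0
    rw [c0, hx1]; exact hr1
  · rw [c0, c0, hx0, hx1]
    apply mul_right_cancel₀ hH00
    rw [mul_assoc, mul_assoc, ← hV1, ← hV2]
    exact h1
  · rw [c0, c0, Submodule.coe_add, hx0, hx1]
    apply mul_right_cancel₀ hH00
    rw [neg_mul, mul_assoc, mul_assoc (e0 : RO ℤ) ((G l).coeff r0), ← hV1, ← hV3]
    exact h01
  · exact hp'
  · rw [c0, hx0]
    exact hg'

end

end Pool.Agent.B5.KO12
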